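import Pool.Agent.K1H47.RC.Stm

set_option autoImplicit false

/-!
# Power series with geometrically decreasing coefficients over an ultrametric field
-/

namespace Pool.Agent.K1H33.RC

open MvPolynomial Topology Filter Pool.Agent.K1H47.RC

variable {L : Type} [NontriviallyNormedField L] [CompleteSpace L] [IsUltrametricDist L]

/-- coefficients bounded by a multiple of `r ^ k` -/
def Bdd (r : ℝ) (P : PowerSeries L) : Prop := ∃ C : ℝ, 0 ≤ C ∧ ∀ k, ‖PowerSeries.coeff k P‖ ≤ C * r ^ k

/-- the value at `t` -/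
noncomputable def Ev (t : L) (P : PowerSeries L) : L := ∑' k, PowerSeries.coeff k P * t ^ k

omit [CompleteSpace L] [IsUltrametricDist L] in
lemma term_le {r C : ℝ} {P : PowerSeries L} (h : ∀ k, ‖PowerSeries.coeff k P‖ ≤ C * r ^ k)
    {t : L} (ht : ‖t‖ ≤ 1) (k : ℕ) : ‖PowerSeries.coeff k P * t ^ k‖ ≤ C * r ^ k := by
  rw [norm_mul, norm_pow]
  calc _ ≤ ‖PowerSeries.coeff k P‖ * 1 :=
        mul_le_mul_of_nonneg_left (pow_le_one₀ (norm_nonneg _) ht) (norm_nonneg _)
    _ ≤ _ := by rw [mul_one]; exact h k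

omit [CompleteSpace L] [IsUltrametricDist L] in
lemma summ_norm {r : ℝ} (hr0 : 0 ≤ r) (hr : r < 1) {P : PowerSeries L} (h : Bdd r P) {t : L} (ht : ‖t‖ ≤ 1) :
    Summable fun k => ‖PowerSeries.coeff k P * t ^ k‖ := by
  obtain ⟨C, hC, hP⟩ := h
  exact Summable.of_nonneg_of_le (fun _ => norm_nonneg _) (term_le hP ht)
    ((summable_geometric_of_lt_one hr0 hr).mul_left C)

omit [IsUltrametricDist L] in
lemma summ {r : ℝ} (hr0 : 0 ≤ r) (hr : r < 1) {P : PowerSeries L} (h : Bdd r P) {t : L} (ht : ‖t‖ ≤ 1) :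
    Summable fun k => PowerSeries.coeff k P * t ^ k := (summ_norm hr0 hr h ht).of_norm

omit [CompleteSpace L] [IsUltrametricDist L] in
lemma Bdd.add {r : ℝ} (_ : 0 ≤ r) {P Q : PowerSeries L} (hP : Bdd r P) (hQ : Bdd r Q) :
    Bdd r (P + Q) := by
  obtain ⟨C, hC, h1⟩ := hP
  obtain ⟨D, hD, h2⟩ := hQ
  refine ⟨C + D, by positivity, fun k => ?_⟩
  rw [map_add, add_mul]
  exact (norm_add_le _ _).trans (add_le_add (h1 k) (h2 k))

omit [CompleteSpace L] in
lemma Bdd.mul {r : ℝ} (hr0 : 0 ≤ r) {P Q : PowerSeries L} (hP : Bdd r P) (hQ : Bdd r Q) :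
    Bdd r (P * Q) := by
  obtain ⟨C, hC, h1⟩ := hP
  obtain ⟨D, hD, h2⟩ := hQ
  refine ⟨C * D, by positivity, fun k => ?_⟩
  rw [PowerSeries.coeff_mul]
  apply IsUltrametricDist.norm_sum_le_of_forall_le_of_nonneg (by positivity)
  rintro ⟨i, j⟩ hij
  rw [Finset.HasAntidiagonal.mem_antidiagonal] at hij
  simp only at hij
  rw [norm_mul]
  calc _ ≤ (C * r ^ i) * (D * r ^ j) := mul_le_mul (h1 i) (h2 j) (norm_nonneg _) (by positivity)
    _ = C * D * r ^ k := by rw [← hij, pow_add]; ring

omit [CompleteSpace L] [IsUltrametricDist L] in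
lemma Bdd.C {r : ℝ} (hr0 : 0 ≤ r) (a : L) : Bdd r (PowerSeries.C a : PowerSeries L) := by
  refine ⟨‖a‖, norm_nonneg _, fun k => ?_⟩
  rw [PowerSeries.coeff_C]
  split_ifs with h
  · rw [h, pow_zero, mul_one]
  · rw [norm_zero]; positivity

omit [CompleteSpace L] [IsUltrametricDist L] in
lemma Bdd.neg {r : ℝ} {P : PowerSeries L} (hP : Bdd r P) : Bdd r (-P) := by
  obtain ⟨C, hC, h1⟩ := hP
  refine ⟨C, hC, fun k => ?_⟩
  rw [map_neg, norm_neg]
  exact h1 k

omit [IsUltrametricDist L] in
lemma Ev_add {r : ℝ} (hr0 : 0 ≤ r) (hr : r < 1) {P Q : PowerSeries L} (hP : Bdd r P) (hQ : Bdd r Q) {t : L}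
    (ht : ‖t‖ ≤ 1) : Ev t (P + Q) = Ev t P + Ev t Q := by
  unfold Ev
  rw [← (summ hr0 hr hP ht).tsum_add (summ hr0 hr hQ ht)]
  apply tsum_congr
  intro k
  rw [map_add, add_mul]

omit [IsUltrametricDist L] in
lemma Ev_mul {r : ℝ} (hr0 : 0 ≤ r) (hr : r < 1) {P Q : PowerSeries L} (hP : Bdd r P) (hQ : Bdd r Q) {t : L}
    (ht : ‖t‖ ≤ 1) : Ev t (P * Q) = Ev t P * Ev t Q := by
  unfold Ev
  rw [tsum_mul_tsum_eq_tsum_sum_antidiagonal_of_summable_norm (summ_norm hr0 hr hP ht)
    (summ_norm hr0 hr hQ ht)]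
  apply tsum_congr
  intro k
  rw [PowerSeries.coeff_mul, Finset.sum_mul]
  apply Finset.sum_congr rfl
  rintro ⟨i, j⟩ hij
  rw [Finset.HasAntidiagonal.mem_antidiagonal] at hij
  simp only at hij
  rw [← hij, pow_add]
  ring

omit [CompleteSpace L] [IsUltrametricDist L] in
lemma Ev_C (a t : L) : Ev t (PowerSeries.C a) = a := by
  unfold Ev
  rw [tsum_eq_single 0]
  · rw [PowerSeries.coeff_C, if_pos rfl, pow_zero, mul_one]
  · intro k hk
    rw [PowerSeries.coeff_C, if_neg hk, zero_mul]

omit [CompleteSpace L] [IsUltrametricDist L] in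
lemma Ev_neg (P : PowerSeries L) (t : L) : Ev t (-P) = - Ev t P := by
  unfold Ev
  rw [← tsum_neg]
  apply tsum_congr
  intro k
  rw [map_neg, neg_mul]

/-- polynomials of bounded series -/
lemma aeval_Ev {ι : Type} {r : ℝ} (hr0 : 0 ≤ r) (hr : r < 1) (P : ι → PowerSeries L) (hP : ∀ i, Bdd r (P i))
    (W : MvPolynomial ι L) : Bdd r (aeval P W) ∧ ∀ t : L, ‖t‖ ≤ 1 →
      Ev t (aeval P W) = eval (fun i => Ev t (P i)) W := by
  induction W using MvPolynomial.induction_on with
  | C a =>
    rw [aeval_C]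
    exact ⟨Bdd.C hr0 a, fun t ht => by rw [eval_C]; exact Ev_C a t⟩
  | add p q hp hq =>
    rw [map_add]
    exact ⟨hp.1.add hr0 hq.1, fun t ht => by
      rw [Ev_add hr0 hr hp.1 hq.1 ht, map_add, hp.2 t ht, hq.2 t ht]⟩
  | mul_X p i hp =>
    rw [map_mul, aeval_X]
    exact ⟨hp.1.mul hr0 (hP i), fun t ht => by
      rw [Ev_mul hr0 hr hp.1 (hP i) ht, map_mul, eval_X, hp.2 t ht]⟩

/-- the value and the first coefficient -/
lemma Ev_shift {r : ℝ} (hr0 : 0 ≤ r) (hr : r < 1) {P : PowerSeries L} {C : ℝ} (hC : 0 ≤ C)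
    (hP : ∀ k, ‖PowerSeries.coeff k P‖ ≤ C * r ^ k) :
    (∀ k, ‖PowerSeries.coeff k (PowerSeries.mk fun k => PowerSeries.coeff (k + 1) P)‖ ≤ C * r ^ k) ∧
    ∀ t : L, ‖t‖ ≤ 1 → Ev t P = PowerSeries.coeff 0 P +
      t * Ev t (PowerSeries.mk fun k => PowerSeries.coeff (k + 1) P) ∧
      ‖Ev t (PowerSeries.mk fun k => PowerSeries.coeff (k + 1) P)‖ ≤ C := by
  have h1 : ∀ k, ‖PowerSeries.coeff k (PowerSeries.mk fun k => PowerSeries.coeff (k + 1) P)‖ ≤ C * r ^ k := by
    intro k
    rw [PowerSeries.coeff_mk]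
    refine (hP (k + 1)).trans ?_
    rw [pow_succ]
    have : r ^ k * r ≤ r ^ k * 1 := mul_le_mul_of_nonneg_left hr.le (by positivity)
    rw [mul_one] at this
    exact mul_le_mul_of_nonneg_left this hC
  refine ⟨h1, fun t ht => ⟨?_, ?_⟩⟩
  · unfold Ev
    rw [(summ hr0 hr ⟨C, hC, hP⟩ ht).tsum_eq_zero_add, pow_zero, mul_one, ← tsum_mul_left]
    congr 1
    apply tsum_congr
    intro k
    rw [PowerSeries.coeff_mk, pow_succ]
    ring
  · unfold Ev
    apply IsUltrametricDist.norm_tsum_le_of_forall_le_of_nonneg hC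
    intro k
    refine (term_le h1 ht k).trans ?_
    have : r ^ k ≤ 1 := pow_le_one₀ hr0 hr.le
    calc C * r ^ k ≤ C * 1 := mul_le_mul_of_nonneg_left this hC
      _ = C := mul_one _

/-- the identity theorem -/
lemma ident {r : ℝ} (hr0 : 0 ≤ r) (hr : r < 1) (T : Set L) (hT : Acc T) : ∀ (m : ℕ) (P : PowerSeries L),
    Bdd r P → (∀ t ∈ T, t ≠ 0 → ‖t‖ ≤ 1 → Ev t P = 0) → PowerSeries.coeff m P = 0 := by
  -- constant coefficient
  have h0 : ∀ P : PowerSeries L, Bdd r P → (∀ t ∈ T, t ≠ 0 → ‖t‖ ≤ 1 → Ev t P = 0) →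
      PowerSeries.coeff 0 P = 0 := by
    intro P hB hz
    obtain ⟨C, hC, hP⟩ := hB
    obtain ⟨h1, h2⟩ := Ev_shift hr0 hr hC hP
    by_contra hne
    have hpos : 0 < ‖PowerSeries.coeff 0 P‖ := norm_pos_iff.2 hne
    obtain ⟨t, ht, ht0, htn⟩ := hT (min 1 (‖PowerSeries.coeff 0 P‖ / (C + 1))) (by positivity)
    have ht1 : ‖t‖ ≤ 1 := htn.le.trans (min_le_left _ _)
    have ht2 : ‖t‖ < ‖PowerSeries.coeff 0 P‖ / (C + 1) := htn.trans_le (min_le_right _ _)
    obtain ⟨h3, h4⟩ := h2 t ht1
    rw [hz t ht ht0 ht1] at h3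
    have h5 : PowerSeries.coeff 0 P = -(t * Ev t (PowerSeries.mk fun k => PowerSeries.coeff (k + 1) P)) := by
      linear_combination -h3
    have h6 : ‖PowerSeries.coeff 0 P‖ ≤ ‖t‖ * C := by
      rw [h5, norm_neg, norm_mul]
      exact mul_le_mul_of_nonneg_left h4 (norm_nonneg _)
    rw [lt_div_iff₀ (by positivity)] at ht2
    have h7 : 0 ≤ ‖t‖ := norm_nonneg _
    nlinarith
  intro m
  induction m with
  | zero => exact h0
  | succ m ih =>
    intro P hB hz
    obtain ⟨C, hC, hP⟩ := id hB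
    obtain ⟨h1, h2⟩ := Ev_shift hr0 hr hC hP
    have h3 := ih _ ⟨C, hC, h1⟩ (by
      intro t ht ht0 ht1
      obtain ⟨h4, _⟩ := h2 t ht1
      rw [hz t ht ht0 ht1, h0 P hB hz, zero_add] at h4
      exact (mul_eq_zero.1 h4.symm).resolve_left ht0)
    rwa [PowerSeries.coeff_mk] at h3

/-- the series of a family -/
noncomputable def Ps {ι : Type} (c : ι → ℕ → L → L) (s : L) (i : ι) : PowerSeries L :=
  PowerSeries.mk fun k => c i k s

omit [CompleteSpace L] [IsUltrametricDist L] in
lemma Ev_Ps {ι : Type} (c : ι → ℕ → L → L) (s t : L) : (fun i => Ev t (Ps c s i)) = ev c s t := by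
  funext i
  unfold Ev Ps ev
  apply tsum_congr
  intro k
  rw [PowerSeries.coeff_mk]

omit [CompleteSpace L] [IsUltrametricDist L] in
lemma Ps_bdd {ι : Type} {r : ℝ} {c c' : ι → ℕ → L → L} (h : Fam r c c') {s : L} (hs : ‖s‖ ≤ 1) (i : ι) :
    Bdd r (Ps c s i) ∧ Bdd r (Ps c' s i) := by
  refine ⟨⟨1, zero_le_one, fun k => ?_⟩, ⟨1, zero_le_one, fun k => ?_⟩⟩
  · unfold Ps
    rw [PowerSeries.coeff_mk, one_mul]
    exact (h i k).1 s hs
  · unfold Ps
    rw [PowerSeries.coeff_mk, one_mul]
    exact (h i k).2.1 s hs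

theorem t_ZERO : S_ZERO := by
  intro L _ _ _ ι _ r hr0 hr c c' hF W s hs T hT hz t ht
  obtain ⟨h1, h2⟩ := aeval_Ev hr0 hr (Ps c s) (fun i => (Ps_bdd hF hs i).1) W
  have h3 : aeval (Ps c s) W = 0 := by
    ext m
    rw [map_zero]
    apply ident hr0 hr T hT m _ h1
    intro u hu _ hu1
    rw [h2 u hu1, Ev_Ps]
    exact hz u hu hu1
  rw [← Ev_Ps, ← h2 t ht, h3]
  unfold Ev
  simp

omit [CompleteSpace L] in
/-- derivative in the parameter -/
lemma hasDeriv_of_Sm {C : ℝ} {a a' : L → L} (h : Sm C a a') {s : L} (hs : ‖s‖ < 1) :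
    HasDerivAt a (a' s) s := by
  have hC : 0 ≤ C := (norm_nonneg _).trans (h.1 s hs.le)
  rw [hasDerivAt_iff_isLittleO, Asymptotics.isLittleO_iff]
  intro e he
  have h1 : ∀ᶠ x in 𝓝 s, ‖x‖ < 1 := (isOpen_lt continuous_norm continuous_const).mem_nhds hs
  have h2 : ∀ᶠ x in 𝓝 s, ‖x - s‖ < e / (C + 1) := by
    have : Tendsto (fun x : L => ‖x - s‖) (𝓝 s) (𝓝 0) := by
      have h3 : Continuous fun x : L => ‖x - s‖ := by fun_prop
      have := h3.tendsto s
      rwa [sub_self, norm_zero] at this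
    exact this.eventually (gt_mem_nhds (by positivity))
  filter_upwards [h1, h2] with x hx1 hx2
  have h3 := h.2.2 x s s hx1.le hs.le hs.le
  rw [sub_self, norm_zero, max_eq_left (norm_nonneg _)] at h3
  rw [smul_eq_mul, mul_comm (x - s)]
  refine h3.trans ?_
  rw [lt_div_iff₀ (by positivity)] at hx2
  have h4 : C * ‖x - s‖ ≤ e := by nlinarith [norm_nonneg (x - s)]
  calc C * (‖x - s‖ * ‖x - s‖) = (C * ‖x - s‖) * ‖x - s‖ := by ring
    _ ≤ e * ‖x - s‖ := mul_le_mul_of_nonneg_right h4 (norm_nonneg _)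

omit [CompleteSpace L] in
/-- the coefficients of a polynomial of the series are differentiable in the parameter -/
lemma deriv_coeff {ι : Type} [Fintype ι] {r : ℝ} {c c' : ι → ℕ → L → L} (h : Fam r c c')
    (W : MvPolynomial ι L) {s : L} (hs : ‖s‖ < 1) : ∀ k : ℕ,
    HasDerivAt (fun s' => PowerSeries.coeff k (aeval (Ps c s') W))
      (PowerSeries.coeff k (∑ l, aeval (Ps c s) (pderiv l W) * Ps c' s l)) s := by
  classical
  induction W using MvPolynomial.induction_on with
  | C a =>
    intro k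
    have h1 : ∑ l, aeval (Ps c s) (pderiv l (MvPolynomial.C a : MvPolynomial ι L)) * Ps c' s l = 0 := by
      apply Finset.sum_eq_zero
      intro l _
      rw [pderiv_C, map_zero, zero_mul]
    rw [h1, map_zero]
    simp only [aeval_C]
    exact hasDerivAt_const _ _
  | add p q hp hq =>
    intro k
    have h1 : ∑ l, aeval (Ps c s) (pderiv l (p + q)) * Ps c' s l =
        ∑ l, aeval (Ps c s) (pderiv l p) * Ps c' s l + ∑ l, aeval (Ps c s) (pderiv l q) * Ps c' s l := by
      rw [← Finset.sum_add_distrib]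
      apply Finset.sum_congr rfl
      intro l _
      rw [map_add, map_add, add_mul]
    rw [h1, map_add]
    simp only [map_add]
    exact (hp k).add (hq k)
  | mul_X p i hp =>
    intro k
    have h1 : ∑ l, aeval (Ps c s) (pderiv l (p * X i)) * Ps c' s l =
        (∑ l, aeval (Ps c s) (pderiv l p) * Ps c' s l) * Ps c s i + aeval (Ps c s) p * Ps c' s i := by
      have h2 : ∀ l, aeval (Ps c s) (pderiv l (p * X i)) * Ps c' s l =
          aeval (Ps c s) (pderiv l p) * Ps c' s l * Ps c s i +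
            (if l = i then aeval (Ps c s) p * Ps c' s i else 0) := by
        intro l
        rw [Derivation.leibniz, smul_eq_mul, smul_eq_mul, pderiv_X, map_add, map_mul, map_mul, aeval_X]
        by_cases hl : l = i
        · subst hl
          rw [Pi.single_eq_same, map_one, if_pos rfl]
          ring
        · rw [Pi.single_eq_of_ne (Ne.symm hl), map_zero, if_neg hl]
          ring
      rw [Finset.sum_congr rfl (fun l _ => h2 l), Finset.sum_add_distrib, Finset.sum_mul,
        Finset.sum_ite_eq' Finset.univ i, if_pos (Finset.mem_univ _)]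
    rw [h1, map_add, PowerSeries.coeff_mul, PowerSeries.coeff_mul, ← Finset.sum_add_distrib]
    have h3 : (fun s' => PowerSeries.coeff k (aeval (Ps c s') (p * X i))) =
        fun s' => ∑ x ∈ Finset.HasAntidiagonal.antidiagonal k, PowerSeries.coeff x.1 (aeval (Ps c s') p) * c i x.2 s' := by
      funext s'
      rw [map_mul, aeval_X, PowerSeries.coeff_mul]
      apply Finset.sum_congr rfl
      intro x _
      unfold Ps
      rw [PowerSeries.coeff_mk]
    rw [h3]
    apply HasDerivAt.fun_sum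
    intro x _
    have h4 := (hp x.1).mul (hasDeriv_of_Sm (h i x.2) hs)
    unfold Ps at h4 ⊢
    rw [PowerSeries.coeff_mk, PowerSeries.coeff_mk]
    exact h4

/-- the chain rule for the derivative of power series -/
lemma deriv_aeval {R : Type} [CommRing R] {ι : Type} [Fintype ι] (P : ι → PowerSeries R) (W : MvPolynomial ι R) :
    PowerSeries.derivative R (aeval P W) = ∑ l, aeval P (pderiv l W) * PowerSeries.derivative R (P l) := by
  classical
  induction W using MvPolynomial.induction_on with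
  | C a =>
    rw [aeval_C]
    have : (algebraMap R (PowerSeries R)) a = PowerSeries.C a := rfl
    rw [this, PowerSeries.derivative_C]
    symm
    apply Finset.sum_eq_zero
    intro l _
    rw [pderiv_C, map_zero, zero_mul]
  | add p q hp hq =>
    rw [map_add, map_add, hp, hq, ← Finset.sum_add_distrib]
    apply Finset.sum_congr rfl
    intro l _
    rw [map_add, map_add, add_mul]
  | mul_X p i hp =>
    have h2 : ∀ l, aeval P (pderiv l (p * X i)) * PowerSeries.derivative R (P l) =
        aeval P (pderiv l p) * PowerSeries.derivative R (P l) * P i +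
          (if l = i then aeval P p * PowerSeries.derivative R (P i) else 0) := by
      intro l
      rw [Derivation.leibniz, smul_eq_mul, smul_eq_mul, pderiv_X, map_add, map_mul, map_mul, aeval_X]
      by_cases hl : l = i
      · subst hl
        rw [Pi.single_eq_same, map_one, if_pos rfl]
        ring
      · rw [Pi.single_eq_of_ne (Ne.symm hl), map_zero, if_neg hl]
        ring
    rw [Finset.sum_congr rfl (fun l _ => h2 l), Finset.sum_add_distrib, ← Finset.sum_mul,
      Finset.sum_ite_eq' Finset.univ i, if_pos (Finset.mem_univ _), map_mul, aeval_X, Derivation.leibniz,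
      smul_eq_mul, smul_eq_mul, hp]
    ring

omit [CompleteSpace L] [IsUltrametricDist L] in
lemma Ev_dPs {ι : Type} (c : ι → ℕ → L → L) (s t : L) :
    (fun i => Ev t (PowerSeries.derivative L (Ps c s i))) = evt c s t := by
  funext i
  unfold Ev Ps evt
  apply tsum_congr
  intro k
  rw [PowerSeries.coeff_derivative, PowerSeries.coeff_mk]
  push_cast
  ring

omit [CompleteSpace L] in
lemma Bdd.deriv {r : ℝ} (hr0 : 0 ≤ r) {P : PowerSeries L} (hP : Bdd r P) :
    Bdd r (PowerSeries.derivative L P) := by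
  obtain ⟨C, hC, h1⟩ := hP
  refine ⟨C * r, by positivity, fun k => ?_⟩
  rw [PowerSeries.coeff_derivative, norm_mul]
  have h2 : ‖((k : L) + 1)‖ ≤ 1 := by
    have := IsUltrametricDist.norm_natCast_le_one L (k + 1)
    push_cast at this
    exact this
  calc _ ≤ (C * r ^ (k + 1)) * 1 := mul_le_mul (h1 _) h2 (norm_nonneg _) (by positivity)
    _ = _ := by rw [pow_succ]; ring

/-- the minors of bounded series -/
lemma mnr_Ev {ι : Type} {r : ℝ} (hr0 : 0 ≤ r) (hr : r < 1) (u v w : ι → PowerSeries L) (hu : ∀ i, Bdd r (u i))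
    (hv : ∀ i, Bdd r (v i)) (hw : ∀ i, Bdd r (w i)) (i j k : ι) :
    Bdd r (mnr u v w i j k) ∧ ∀ t : L, ‖t‖ ≤ 1 → Ev t (mnr u v w i j k) =
      mnr (fun i => Ev t (u i)) (fun i => Ev t (v i)) (fun i => Ev t (w i)) i j k := by
  have h3 : ∀ (a b c : PowerSeries L), Bdd r a → Bdd r b → Bdd r c → Bdd r (a * b * c) ∧
      ∀ t : L, ‖t‖ ≤ 1 → Ev t (a * b * c) = Ev t a * Ev t b * Ev t c := by
    intro a b c ha hb hc
    refine ⟨(ha.mul hr0 hb).mul hr0 hc, fun t ht => ?_⟩
    rw [Ev_mul hr0 hr (ha.mul hr0 hb) hc ht, Ev_mul hr0 hr ha hb ht]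
  have hadd : ∀ (a b : PowerSeries L) (x y : L → L), (Bdd r a ∧ ∀ t : L, ‖t‖ ≤ 1 → Ev t a = x t) →
      (Bdd r b ∧ ∀ t : L, ‖t‖ ≤ 1 → Ev t b = y t) →
      (Bdd r (a + b) ∧ ∀ t : L, ‖t‖ ≤ 1 → Ev t (a + b) = x t + y t) := by
    intro a b x y ha hb
    exact ⟨ha.1.add hr0 hb.1, fun t ht => by rw [Ev_add hr0 hr ha.1 hb.1 ht, ha.2 t ht, hb.2 t ht]⟩
  have hsub : ∀ (a b : PowerSeries L) (x y : L → L), (Bdd r a ∧ ∀ t : L, ‖t‖ ≤ 1 → Ev t a = x t) →
      (Bdd r b ∧ ∀ t : L, ‖t‖ ≤ 1 → Ev t b = y t) →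
      (Bdd r (a - b) ∧ ∀ t : L, ‖t‖ ≤ 1 → Ev t (a - b) = x t - y t) := by
    intro a b x y ha hb
    have := hadd a (-b) x (fun t => - y t) ha ⟨hb.1.neg, fun t ht => by rw [Ev_neg, hb.2 t ht]⟩
    rw [← sub_eq_add_neg] at this
    exact ⟨this.1, fun t ht => by rw [this.2 t ht, sub_eq_add_neg]⟩
  unfold mnr
  simp only [Matrix.det_fin_three, Matrix.of_apply, Matrix.cons_val', Matrix.cons_val_zero,
    Matrix.cons_val_one, Matrix.cons_val]
  exact hsub _ _ _ _ (hadd _ _ _ _ (hadd _ _ _ _ (hsub _ _ _ _ (hsub _ _ _ _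
    (h3 _ _ _ (hu i) (hv j) (hw k)) (h3 _ _ _ (hu i) (hv k) (hw j)))
    (h3 _ _ _ (hu j) (hv i) (hw k)) ) (h3 _ _ _ (hu j) (hv k) (hw i))) (h3 _ _ _ (hu k) (hv i) (hw j)))
    (h3 _ _ _ (hu k) (hv j) (hw i))

theorem t_FLAT : S_FLAT := by
  intro L _ _ _ _ ι _ r hr0 hr c c' hF ρ hρ hρ1 hM0 T hT hz W e hW hW0
  -- the minors vanish
  have hmin : ∀ s, ‖s‖ < ρ → ∀ i j k,
      mnr (Ps c s) (Ps c' s) (fun i => PowerSeries.derivative L (Ps c s i)) i j k = 0 := by
    intro s hs i j k
    have hs1 : ‖s‖ ≤ 1 := (hs.trans_le hρ1).le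
    obtain ⟨h1, h2⟩ := mnr_Ev hr0 hr (Ps c s) (Ps c' s) (fun i => PowerSeries.derivative L (Ps c s i))
      (fun i => (Ps_bdd hF hs1 i).1) (fun i => (Ps_bdd hF hs1 i).2)
      (fun i => (Ps_bdd hF hs1 i).1.deriv hr0) i j k
    ext m
    rw [map_zero]
    apply ident hr0 hr T hT m _ h1
    intro t ht _ ht1
    rw [h2 t ht1, Ev_Ps, Ev_Ps, Ev_dPs]
    exact hz s hs t ht ht1 i j k
  -- the coefficients vanish
  have hco : ∀ m : ℕ, ∀ s, ‖s‖ < ρ → PowerSeries.coeff m (aeval (Ps c s) W) = 0 := by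
    intro m
    induction m using Nat.strong_induction_on with
    | _ m ih =>
      intro s hs
      have hs1 : ‖s‖ < 1 := hs.trans_le hρ1
      rcases Nat.eq_zero_or_pos m with rfl | hm
      · have h1 : PowerSeries.coeff 0 (aeval (Ps c s) W) = eval (fun i => c i 0 s) W := by
          rw [PowerSeries.coeff_zero_eq_constantCoeff_apply]
          have h2 : PowerSeries.constantCoeff (aeval (Ps c s) W) =
              eval₂ ((PowerSeries.constantCoeff (R := L)).comp (algebraMap L (PowerSeries L)))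
                (fun i => PowerSeries.constantCoeff (Ps c s i)) W := by
            rw [aeval_def, eval₂_comp_left]
            rfl
          have h3 : (PowerSeries.constantCoeff (R := L)).comp (algebraMap L (PowerSeries L)) = RingHom.id L := by
            ext x
            simp
          rw [h2, h3]
          have h4 : (fun i => PowerSeries.constantCoeff (Ps c s i)) = fun i => c i 0 s := by
            funext i
            unfold Ps
            rw [← PowerSeries.coeff_zero_eq_constantCoeff_apply, PowerSeries.coeff_mk]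
          rw [h4]
          rfl
        rw [h1]
        exact hW0 s hs
      · obtain ⟨m', rfl⟩ : ∃ m', m = m' + 1 := ⟨m - 1, by omega⟩
        obtain ⟨i0, j0, hM⟩ := hM0 s hs
        obtain ⟨P, hP⟩ : ∃ P, P = Ps c s := ⟨_, rfl⟩
        obtain ⟨P', hP'⟩ : ∃ P', P' = Ps c' s := ⟨_, rfl⟩
        obtain ⟨DW, hDW⟩ : ∃ DW, DW = ∑ l, aeval P (pderiv l W) * P' l := ⟨_, rfl⟩
        -- relation for every coordinate
        have hrel : ∀ l, (P i0 * P' j0 - P j0 * P' i0) * PowerSeries.derivative L (P l) =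
            (P i0 * PowerSeries.derivative L (P j0) - P j0 * PowerSeries.derivative L (P i0)) * P' l -
            (P' i0 * PowerSeries.derivative L (P j0) - P' j0 * PowerSeries.derivative L (P i0)) * P l := by
          intro l
          have h4 := hmin s hs i0 j0 l
          unfold mnr at h4
          simp only [Matrix.det_fin_three, Matrix.of_apply, Matrix.cons_val', Matrix.cons_val_zero,
            Matrix.cons_val_one, Matrix.cons_val] at h4
          rw [← hP, ← hP'] at h4
          linear_combination h4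
        have heuler : ∑ l, aeval P (pderiv l W) * P l = (e : PowerSeries L) * aeval P W := by
          have h5 := congrArg (aeval P) hW.sum_X_mul_pderiv
          rw [map_sum] at h5
          have h6 : (aeval P) (e • W) = (e : PowerSeries L) * aeval P W := by
            rw [map_nsmul, nsmul_eq_mul]
          rw [h6] at h5
          rw [← h5]
          apply Finset.sum_congr rfl
          intro l _
          rw [map_mul, aeval_X, mul_comm]
        have hkey : (P i0 * P' j0 - P j0 * P' i0) * PowerSeries.derivative L (aeval P W) =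
            (P i0 * PowerSeries.derivative L (P j0) - P j0 * PowerSeries.derivative L (P i0)) * DW -
            (P' i0 * PowerSeries.derivative L (P j0) - P' j0 * PowerSeries.derivative L (P i0)) *
              ((e : PowerSeries L) * aeval P W) := by
          rw [deriv_aeval, ← heuler, hDW, Finset.mul_sum, Finset.mul_sum, Finset.mul_sum,
            ← Finset.sum_sub_distrib]
          apply Finset.sum_congr rfl
          intro l _
          linear_combination (aeval P (pderiv l W)) * hrel l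
        -- low coefficients
        have hlow : ∀ i, i ≤ m' → PowerSeries.coeff i (aeval P W) = 0 := by
          intro i hi
          rw [hP]
          exact ih i (by omega) s hs
        have hlowD : ∀ i, i ≤ m' → PowerSeries.coeff i DW = 0 := by
          intro i hi
          have h7 := deriv_coeff hF W hs1 i
          have h8 : (fun s' => PowerSeries.coeff i (aeval (Ps c s') W)) =ᶠ[𝓝 s] fun _ => (0 : L) := by
            have h9 : ∀ᶠ x in 𝓝 s, ‖x‖ < ρ := (isOpen_lt continuous_norm continuous_const).mem_nhds hs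
            filter_upwards [h9] with x hx
            exact ih i (by omega) x hx
          have h10 := (hasDerivAt_const s (0 : L)).congr_of_eventuallyEq h8
          rw [hDW, hP, hP']
          exact h7.unique h10
        have hlowE : ∀ (A B : PowerSeries L) (k : ℕ), (∀ i, i ≤ k → PowerSeries.coeff i B = 0) →
            PowerSeries.coeff k (A * B) = 0 := by
          intro A B k hB
          rw [PowerSeries.coeff_mul]
          apply Finset.sum_eq_zero
          intro x hx
          rw [Finset.HasAntidiagonal.mem_antidiagonal] at hx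
          rw [hB x.2 (by omega), mul_zero]
        have h11 := congrArg (PowerSeries.coeff m') hkey
        rw [map_sub, hlowE _ DW m' hlowD, hlowE _ ((e : PowerSeries L) * aeval P W) m'
          (fun i hi => hlowE _ _ i (fun i' hi' => hlow i' (by omega))), sub_zero, PowerSeries.coeff_mul] at h11
        rw [Finset.sum_eq_single (0, m')] at h11
        · simp only at h11
          rw [PowerSeries.coeff_derivative] at h11
          have h12 : PowerSeries.coeff 0 (P i0 * P' j0 - P j0 * P' i0) =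
              c i0 0 s * c' j0 0 s - c j0 0 s * c' i0 0 s := by
            rw [hP, hP', PowerSeries.coeff_zero_eq_constantCoeff_apply, map_sub, map_mul, map_mul]
            unfold Ps
            simp only [← PowerSeries.coeff_zero_eq_constantCoeff_apply, PowerSeries.coeff_mk]
          rw [h12] at h11
          rcases mul_eq_zero.1 h11 with h13 | h13
          · exact absurd h13 hM
          · rcases mul_eq_zero.1 h13 with h14 | h14
            · rw [← hP]
              exact h14
            · exfalso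
              have : ((m' + 1 : ℕ) : L) = 0 := by push_cast; exact h14
              rw [Nat.cast_eq_zero] at this
              omega
        · intro x hx hne
          rw [Finset.HasAntidiagonal.mem_antidiagonal] at hx
          have h15 : x.2 + 1 ≤ m' := by
            by_contra hcon
            apply hne
            ext
            · simp only; omega
            · simp only; omega
          rw [PowerSeries.coeff_derivative, hlow _ h15, zero_mul, mul_zero]
        · intro hne
          exact absurd (Finset.HasAntidiagonal.mem_antidiagonal.2 (zero_add m')) hne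
  intro s t hs ht
  have hs1 : ‖s‖ ≤ 1 := (hs.trans_le hρ1).le
  obtain ⟨_, h2⟩ := aeval_Ev hr0 hr (Ps c s) (fun i => (Ps_bdd hF hs1 i).1) W
  rw [← Ev_Ps, ← h2 t ht]
  have h3 : aeval (Ps c s) W = 0 := by
    ext m
    rw [map_zero]
    exact hco m s hs
  rw [h3]
  unfold Ev
  simp

end Pool.Agent.K1H33.RC
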