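import Pool.Agent.K1H47.RC.Stm
import Pool.Agent.H936R2.Arc

set_option autoImplicit false

/-!
# From Newton series to power series
-/

namespace Pool.Agent.K1H33.RC

open Polynomial Pool.Agent.K1H47.RC

section

variable {L : Type} [NontriviallyNormedField L] [CompleteSpace L] [IsUltrametricDist L]

omit [CompleteSpace L] [IsUltrametricDist L] in
lemma Sm_mul_const {C : ℝ} {a a' : L → L} (h : Sm C a a') (x : L) :
    Sm (C * ‖x‖) (fun s => a s * x) (fun s => a' s * x) := by
  refine ⟨fun s hs => ?_, fun s hs => ?_, fun s s' s₁ h1 h2 h3 => ?_⟩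
  · rw [norm_mul]; exact mul_le_mul_of_nonneg_right (h.1 s hs) (norm_nonneg _)
  · rw [norm_mul]; exact mul_le_mul_of_nonneg_right (h.2.1 s hs) (norm_nonneg _)
  · have e : a s * x - a s' * x - a' s₁ * x * (s - s') = (a s - a s' - a' s₁ * (s - s')) * x := by ring
    rw [e, norm_mul]
    calc _ ≤ (C * (‖s - s'‖ * max ‖s - s₁‖ ‖s' - s₁‖)) * ‖x‖ :=
          mul_le_mul_of_nonneg_right (h.2.2 s s' s₁ h1 h2 h3) (norm_nonneg _)
      _ = _ := by ring

omit [CompleteSpace L] [IsUltrametricDist L] in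
lemma Sm_mono {C D : ℝ} {a a' : L → L} (h : Sm C a a') (hCD : C ≤ D) : Sm D a a' :=
  ⟨fun s hs => (h.1 s hs).trans hCD, fun s hs => (h.2.1 s hs).trans hCD, fun s s' s₁ h1 h2 h3 =>
    (h.2.2 s s' s₁ h1 h2 h3).trans (mul_le_mul_of_nonneg_right hCD (by positivity))⟩

lemma Sm_tsum {C : ℝ} (hC : 0 ≤ C) {D : ℕ → ℝ} (hD : Summable D) {b b' : ℕ → L → L}
    (h : ∀ j, Sm C (b j) (b' j)) (h' : ∀ j, Sm (D j) (b j) (b' j)) :
    Sm C (fun s => ∑' j, b j s) (fun s => ∑' j, b' j s) := by
  have hs1 : ∀ s : L, ‖s‖ ≤ 1 → Summable fun j => b j s := fun s hs =>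
    Summable.of_norm_bounded hD fun j => (h' j).1 s hs
  have hs2 : ∀ s : L, ‖s‖ ≤ 1 → Summable fun j => b' j s := fun s hs =>
    Summable.of_norm_bounded hD fun j => (h' j).2.1 s hs
  refine ⟨fun s hs => ?_, fun s hs => ?_, fun s s' s₁ h1 h2 h3 => ?_⟩
  · exact IsUltrametricDist.norm_tsum_le_of_forall_le_of_nonneg hC fun j => (h j).1 s hs
  · exact IsUltrametricDist.norm_tsum_le_of_forall_le_of_nonneg hC fun j => (h j).2.1 s hs
  · have e : ∑' j, b j s - ∑' j, b j s' - (∑' j, b' j s₁) * (s - s') =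
        ∑' j, (b j s - b j s' - b' j s₁ * (s - s')) := by
      rw [((hs1 s h1).sub (hs1 s' h2)).tsum_sub ((hs2 s₁ h3).mul_right _), (hs1 s h1).tsum_sub (hs1 s' h2),
        (hs2 s₁ h3).tsum_mul_right]
    simp only
    rw [e]
    exact IsUltrametricDist.norm_tsum_le_of_forall_le_of_nonneg (by positivity)
      fun j => (h j).2.2 s s' s₁ h1 h2 h3

/-- the coefficients of the binomial polynomials -/
noncomputable def dco (L : Type) [Field L] (j k : ℕ) : L := (descPochhammer L j).coeff k / (j.factorial : L)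

omit [CompleteSpace L] in
lemma dco_norm [CharZero L] (p : ℕ) [Fact p.Prime] (hp : ‖(p : L)‖ < 1) (j k : ℕ) :
    ‖(p : L)‖ ^ (2 * j) * ‖dco L j k‖ ≤ ‖(p : L)‖ ^ j := by
  unfold dco
  rw [norm_div]
  have h1 : ‖(descPochhammer L j).coeff k‖ ≤ 1 := by
    rw [← descPochhammer_map (Int.castRingHom L), coeff_map]
    exact IsUltrametricDist.norm_intCast_le_one L _
  have h2 := Pool.Agent.H936R2.norm_prime_pow_le_factorial (K := L) p hp j
  have h3 : 0 < ‖(j.factorial : L)‖ := norm_pos_iff.2 (by exact_mod_cast Nat.factorial_ne_zero j)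
  rw [mul_div_assoc', div_le_iff₀ h3]
  calc ‖(p : L)‖ ^ (2 * j) * ‖(descPochhammer L j).coeff k‖ ≤ ‖(p : L)‖ ^ (2 * j) * 1 :=
        mul_le_mul_of_nonneg_left h1 (by positivity)
    _ = ‖(p : L)‖ ^ j * ‖(p : L)‖ ^ j := by rw [mul_one, two_mul, pow_add]
    _ ≤ ‖(p : L)‖ ^ j * ‖(j.factorial : L)‖ := mul_le_mul_of_nonneg_left h2 (by positivity)

omit [CompleteSpace L] [IsUltrametricDist L] in
lemma dco_zero {j k : ℕ} (h : j < k) : dco L j k = 0 := by
  unfold dco
  rw [coeff_eq_zero_of_natDegree_lt, zero_div]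
  rw [descPochhammer_natDegree]
  exact h

omit [CompleteSpace L] [IsUltrametricDist L] in
lemma dco_sum [CharZero L] (j n : ℕ) : ∑ k ∈ Finset.range (j + 1), dco L j k * (n : L) ^ k = (n.choose j : L) := by
  have h1 := descPochhammer_eval_eq_descFactorial L n j
  rw [Polynomial.eval_eq_sum_range, descPochhammer_natDegree] at h1
  have h2 : (j.factorial : L) ≠ 0 := by exact_mod_cast Nat.factorial_ne_zero j
  have h3 : ∑ k ∈ Finset.range (j + 1), dco L j k * (n : L) ^ k =
      (∑ k ∈ Finset.range (j + 1), (descPochhammer L j).coeff k * (n : L) ^ k) / (j.factorial : L) := by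
    rw [Finset.sum_div]
    apply Finset.sum_congr rfl
    intro k _
    unfold dco
    ring
  rw [h3, h1, Nat.descFactorial_eq_factorial_mul_choose]
  push_cast
  field_simp

end

theorem t_NEWT : S_NEWT := by
  intro L _ _ _ _ p hpp hp a a' h
  obtain ⟨π, hπ⟩ : ∃ π : ℝ, π = ‖(p : L)‖ := ⟨_, rfl⟩
  have hπ0 : 0 ≤ π := by rw [hπ]; exact norm_nonneg _
  have hπ1 : π < 1 := by rw [hπ]; exact hp
  have hterm : ∀ j k, Sm (π ^ j) (fun s => a j s * dco L j k) (fun s => a' j s * dco L j k) := by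
    intro j k
    apply Sm_mono (Sm_mul_const (h j) (dco L j k))
    rw [hπ]
    exact dco_norm p hp j k
  have hterm' : ∀ j k, Sm (π ^ k) (fun s => a j s * dco L j k) (fun s => a' j s * dco L j k) := by
    intro j k
    rcases Nat.lt_or_ge j k with hjk | hjk
    · rw [dco_zero hjk]
      refine ⟨fun s _ => ?_, fun s _ => ?_, fun s s' s₁ _ _ _ => ?_⟩
      · simp only [mul_zero, norm_zero]; positivity
      · simp only [mul_zero, norm_zero]; positivity
      · simp only [mul_zero, sub_self, zero_mul, norm_zero]; positivity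
    · exact Sm_mono (hterm j k) (pow_le_pow_of_le_one hπ0 hπ1.le hjk)
  refine ⟨fun k s => ∑' j, a j s * dco L j k, fun k s => ∑' j, a' j s * dco L j k, fun k => ?_, ?_⟩
  · rw [← hπ]
    exact Sm_tsum (by positivity) (summable_geometric_of_lt_one hπ0 hπ1) (fun j => hterm' j k)
      (fun j => hterm j k)
  · intro s hs n
    -- the double series
    have hn : ‖(n : L)‖ ≤ 1 := IsUltrametricDist.norm_natCast_le_one L n
    obtain ⟨ρ, hρ⟩ : ∃ ρ : ℝ, ρ = √π := ⟨_, rfl⟩
    have hρ0 : 0 ≤ ρ := by rw [hρ]; exact Real.sqrt_nonneg _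
    have hρ1 : ρ < 1 := by
      rw [hρ, Real.sqrt_lt' one_pos]
      simpa using hπ1
    have hρ2 : ρ ^ 2 = π := by rw [hρ, Real.sq_sqrt hπ0]
    have hbd : ∀ x : ℕ × ℕ, ‖a x.2 s * dco L x.2 x.1 * (n : L) ^ x.1‖ ≤ ρ ^ x.1 * ρ ^ x.2 := by
      rintro ⟨k, j⟩
      simp only
      rcases Nat.lt_or_ge j k with hjk | hjk
      · rw [dco_zero hjk, mul_zero, zero_mul, norm_zero]
        positivity
      · rw [norm_mul, norm_pow]
        calc _ ≤ π ^ j * 1 := mul_le_mul ((hterm j k).1 s hs) (pow_le_one₀ (norm_nonneg _) hn)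
              (by positivity) (by positivity)
          _ = ρ ^ j * ρ ^ j := by rw [mul_one, ← hρ2, ← pow_mul, two_mul, pow_add]
          _ ≤ ρ ^ k * ρ ^ j :=
              mul_le_mul_of_nonneg_right (pow_le_pow_of_le_one hρ0 hρ1.le hjk) (by positivity)
    have hsum : Summable fun x : ℕ × ℕ => a x.2 s * dco L x.2 x.1 * (n : L) ^ x.1 := by
      apply Summable.of_norm_bounded _ hbd
      exact (summable_geometric_of_lt_one hρ0 hρ1).mul_of_nonneg (summable_geometric_of_lt_one hρ0 hρ1)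
        (fun _ => by positivity) (fun _ => by positivity)
    have hfib : ∀ k, HasSum (fun j => a j s * dco L j k * (n : L) ^ k)
        ((∑' j, a j s * dco L j k) * (n : L) ^ k) := by
      intro k
      apply HasSum.mul_right
      apply Summable.hasSum
      exact Summable.of_norm_bounded (summable_geometric_of_lt_one hπ0 hπ1) (fun j => (hterm j k).1 s hs)
    have h1 := hsum.hasSum.prod_fiberwise hfib
    have h2 : ∑' x : ℕ × ℕ, a x.2 s * dco L x.2 x.1 * (n : L) ^ x.1 =
        ∑ j ∈ Finset.range (n + 1), (n.choose j : L) * a j s := by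
      rw [← (Equiv.prodComm ℕ ℕ).tsum_eq (fun x : ℕ × ℕ => a x.2 s * dco L x.2 x.1 * (n : L) ^ x.1)]
      have hsum' : Summable fun x : ℕ × ℕ => a x.1 s * dco L x.1 x.2 * (n : L) ^ x.2 :=
        (Equiv.prodComm ℕ ℕ).summable_iff.2 hsum
      have h3 : ∀ x : ℕ × ℕ, (fun x : ℕ × ℕ => a x.2 s * dco L x.2 x.1 * (n : L) ^ x.1)
          ((Equiv.prodComm ℕ ℕ) x) = a x.1 s * dco L x.1 x.2 * (n : L) ^ x.2 := fun x => rfl
      rw [tsum_congr h3, hsum'.tsum_prod]
      have h4 : ∀ j, ∑' k, a j s * dco L j k * (n : L) ^ k = (n.choose j : L) * a j s := by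
        intro j
        rw [tsum_eq_sum (s := Finset.range (j + 1))]
        · rw [← dco_sum j n, Finset.sum_mul]
          apply Finset.sum_congr rfl
          intro k _
          ring
        · intro k hk
          rw [Finset.mem_range, not_lt] at hk
          rw [dco_zero (by omega), mul_zero, zero_mul]
      rw [tsum_congr h4, tsum_eq_sum (s := Finset.range (n + 1))]
      intro j hj
      rw [Finset.mem_range, not_lt] at hj
      rw [Nat.choose_eq_zero_of_lt (by omega), Nat.cast_zero, zero_mul]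
    rw [← h2]
    exact h1

end Pool.Agent.K1H33.RC
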